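import Pool.Agent.TH566.BC.Final

/-!
# Point-finite Borel-additive families: bounded class, or a kernel and a saturated ideal

Let `𝒳` be a point-finite Borel-additive family in a metric space `X`. Either all unions of
subfamilies lie in one additive Borel class `Σ_α` with `α < ω₁`, or there are a weakly
inaccessible cardinal `κ ≤ 𝔠` carrying a `κ`-complete `ω₁`-saturated ideal and a nonempty closed
set `H` on which the family is still unbounded and every nonempty relatively open part of which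
has density at least `κ` and meets at least `κ` members of the family.
-/

set_option autoImplicit false

open Pool.Agent.TH566.BC

universe u

namespace Pool.Agent.Results.MP_b624cf_lc.BoundedOrKernel

theorem result :
    ∀ (X : Type u) [MetricSpace X] (𝒳 : Set (Set X)),
      (∀ x : X, {A : Set X | A ∈ 𝒳 ∧ x ∈ A}.Finite) →
      (∀ 𝒴 ⊆ 𝒳, @MeasurableSet X (borel X) (⋃₀ 𝒴)) →
      ∀ S : Ordinal.{0} → Set (Set X),
        S 1 = {U : Set X | IsOpen U} →
        (∀ α : Ordinal.{0}, 1 < α → α < (Cardinal.aleph 1).ord →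
          S α = {A : Set X | ∃ f : ℕ → Set X, A = (⋃ n, f n) ∧
            ∀ n, ∃ β : Ordinal.{0}, 1 ≤ β ∧ β < α ∧ (f n)ᶜ ∈ S β}) →
        (∃ α : Ordinal.{0}, 1 ≤ α ∧ α < (Cardinal.aleph 1).ord ∧ ∀ 𝒴 ⊆ 𝒳, ⋃₀ 𝒴 ∈ S α) ∨
        ∃ κ : Cardinal.{0},
          Cardinal.aleph 1 < κ ∧ κ ≤ Cardinal.continuum ∧
          κ.IsRegular ∧ (∀ μ < κ, Order.succ μ < κ) ∧
          (∃ J : Set (Set κ.ord.ToType),
            Set.univ ∉ J ∧ (∀ k, {k} ∈ J) ∧ (∀ A ∈ J, ∀ B ⊆ A, B ∈ J) ∧
            (∀ 𝒜 ⊆ J, Cardinal.mk 𝒜 < κ → ⋃₀ 𝒜 ∈ J) ∧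
            (∀ 𝒜 : Set (Set κ.ord.ToType), 𝒜.PairwiseDisjoint id → (∀ A ∈ 𝒜, A ∉ J) →
              𝒜.Countable)) ∧
          ∃ H : Set X, IsClosed H ∧ H.Nonempty ∧
            (∀ α : Ordinal.{0}, 1 ≤ α → α < (Cardinal.aleph 1).ord →
              ∃ 𝒴 ⊆ 𝒳, ⋃₀ 𝒴 ∩ H ∉ S α) ∧
            ∀ U : Set X, IsOpen U → (U ∩ H).Nonempty →
              (∀ D : Set X, U ∩ H ⊆ closure D → Cardinal.lift.{u} κ ≤ Cardinal.mk D) ∧
              Cardinal.lift.{u} κ ≤ Cardinal.mk {A : Set X // A ∈ 𝒳 ∧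
                (A ∩ (U ∩ H)).Nonempty} := by
  intro X _ 𝒳 hfin hborel S h1 h2
  have hL := lev_of_hier h1 h2
  set L : W1 → Set (Set X) := fun i => S (max 1 i.o) with hLdef
  have hω : (Cardinal.aleph 1).ord = (Ordinal.omega 1 : Ordinal.{0}) := by simp
  have hV := pf_subtype hL hfin hborel
  set V : {A : Set X // A ∈ 𝒳} → Set X := fun A => A.1 with hVdef
  by_cases hunb : (Set.univ : Set {A : Set X // A ∈ 𝒳}) ∈ bd L V
  · left
    exact bounded_of_univ hunb
  · right
    obtain ⟨τ, hY, hbad⟩ := exists_merge hV hunb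
    have hI := satIdeal_bd hL hY (merged_proper hbad)
    obtain ⟨J, hJ, hJC⟩ := hI.exists_on_card
    obtain ⟨H, hHc, hHne, hHs, hH⟩ := exists_kernel hL hI
    refine ⟨addi (bd L (mg V τ)), hI.aleph_one_lt_addi, addi_le_continuum hI,
      regular_of_ideal hJ hJC, limit_of_ideal hJ hJC,
      ⟨J, hJ.proper, hJ.single, hJ.down, hJC, ?_⟩, H, hHc, hHne, ?_, ?_⟩
    · intro 𝒜 hd hp
      refine hJ.sat' 𝒜 id ?_ hp
      intro A hA B hB hne
      exact hd hA hB hne
    · intro α hα hα'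
      by_contra hcon
      push Not at hcon
      rw [hω] at hα'
      obtain ⟨i, rfl⟩ := W1.exists_o α hα'
      have hLi : L i = S i.o := by
        rw [hLdef]
        show S (max 1 i.o) = S i.o
        rw [max_eq_right hα]
      obtain ⟨j, hj⟩ := hHs
      apply hI.proper
      refine ⟨max i j, fun F _ => ?_⟩
      have h3 : un (mg V τ) F ∩ H ∈ L i := by
        rw [un_mg, un_subtype, hLi]
        refine hcon _ ?_
        rintro _ ⟨A, -, rfl⟩
        exact A.2
      have h5 : un (mg V τ) F = (un (mg V τ) F ∩ H) ∪ (un (mg V τ) F ∩ Hᶜ) := by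
        rw [← Set.inter_union_distrib_left, Set.union_compl_self, Set.inter_univ]
      rw [h5]
      exact hL.union (hL.mono _ _ (le_max_left _ _) h3) (hL.mono _ _ (le_max_right _ _) (hj F))
    · intro U hU hne
      constructor
      · intro D hD
        by_contra hcon
        exact hH U hU hne (tiny_of_density hL hY hbad hD (not_le.mp hcon))
      · by_contra hcon
        refine hH U hU hne (tiny_of_card hL τ hY hbad (lt_of_le_of_lt ?_ (not_le.mp hcon)))
        let g : {a : {A : Set X // A ∈ 𝒳} // (V a ∩ (U ∩ H)).Nonempty} →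
            {A : Set X // A ∈ 𝒳 ∧ (A ∩ (U ∩ H)).Nonempty} :=
          fun a => ⟨a.1.1, a.1.2, a.2⟩
        have hg : Function.Injective g := by
          rintro ⟨⟨a, ha⟩, ha'⟩ ⟨⟨b, hb⟩, hb'⟩ hab
          simp only [g, Subtype.mk.injEq] at hab
          subst hab
          rfl
        exact Cardinal.mk_le_of_injective hg

end Pool.Agent.Results.MP_b624cf_lc.BoundedOrKernel
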