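import Pool.Agent.TH566.BC.Final
import Pool.Agent.TH566.BC.Gen

/-!
# Families whose members have locally small traces are of bounded class

In ZFC: let `𝒳` be a point-finite Borel-additive family in a metric space `X` such that every
point has an open neighbourhood `U` and a cardinal `μ` below the first weakly inaccessible
cardinal for which at most `μ` members `A` of `𝒳` have a trace `A ∩ U` of density above `μ`.
Then `𝒳` is `Σ_α`-additive for some `α < ω₁`.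
-/

set_option autoImplicit false

open Pool.Agent.TH566.BC

universe u

namespace Pool.Agent.Results.MP_b624cf_lc.SmallTraces

theorem result :
    ∀ (X : Type u) [MetricSpace X] (𝒳 : Set (Set X)),
      (∀ x : X, {A : Set X | A ∈ 𝒳 ∧ x ∈ A}.Finite) →
      (∀ 𝒴 ⊆ 𝒳, @MeasurableSet X (borel X) (⋃₀ 𝒴)) →
      (∀ x : X, ∃ U : Set X, IsOpen U ∧ x ∈ U ∧ ∃ μ : Cardinal.{u},
        (∀ ν ≤ μ, ¬ (Cardinal.aleph0 < ν ∧ ν.IsRegular ∧ ∀ ρ < ν, Order.succ ρ < ν)) ∧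
        Cardinal.mk {A : Set X // A ∈ 𝒳 ∧
          ∀ D : Set X, A ∩ U ⊆ closure D → μ < Cardinal.mk D} ≤ μ) →
      ∀ S : Ordinal.{0} → Set (Set X),
        S 1 = {U : Set X | IsOpen U} →
        (∀ α : Ordinal.{0}, 1 < α → α < (Cardinal.aleph 1).ord →
          S α = {A : Set X | ∃ f : ℕ → Set X, A = (⋃ n, f n) ∧
            ∀ n, ∃ β : Ordinal.{0}, 1 ≤ β ∧ β < α ∧ (f n)ᶜ ∈ S β}) →
        ∃ α : Ordinal.{0}, 1 ≤ α ∧ α < (Cardinal.aleph 1).ord ∧ ∀ 𝒴 ⊆ 𝒳, ⋃₀ 𝒴 ∈ S α := by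
  intro X _ 𝒳 hfin hborel hloc S h1 h2
  have hL := lev_of_hier h1 h2
  refine bounded_of_univ (main_positive hL (pf_subtype hL hfin hborel) fun x => ?_)
  obtain ⟨U, hU, hxU, μ, hμ1, hμ2⟩ := hloc x
  refine ⟨U, hU, hxU, μ, hμ1, le_trans ?_ hμ2⟩
  let g : {t : {A : Set X // A ∈ 𝒳} // ∀ D : Set X, t.1 ∩ U ⊆ closure D → μ < Cardinal.mk D} →
      {A : Set X // A ∈ 𝒳 ∧ ∀ D : Set X, A ∩ U ⊆ closure D → μ < Cardinal.mk D} :=
    fun t => ⟨t.1.1, t.1.2, t.2⟩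
  have hg : Function.Injective g := by
    rintro ⟨⟨a, ha⟩, ha'⟩ ⟨⟨b, hb⟩, hb'⟩ hab
    simp only [g, Subtype.mk.injEq] at hab
    subst hab
    rfl
  exact Cardinal.mk_le_of_injective hg

end Pool.Agent.Results.MP_b624cf_lc.SmallTraces
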